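import Pool.Agent.N303.SJ.Stm

set_option autoImplicit false

/-! Project SJ: the estimate for a block in a shell. -/

open MeasureTheory Metric Set
open scoped ENNReal RealInnerProductSpace NNReal

namespace Pool.Agent.N265.SJ

open Pool.Agent.N303.SH Pool.Agent.N303.SJ

lemma tonelli {n : ℕ} (F : E n → ℝ≥0∞) (hF : Measurable F) (A U : Set (E n))
    (hA : MeasurableSet A) (ℓ : ℝ) (h : ∀ x ∈ A, ball x ℓ ⊆ U) :
    volume (ball (0 : E n) ℓ) * ∫⁻ x in A, F x ≤ ∫⁻ x0 in U, ∫⁻ x in ball x0 ℓ, F x := by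
  have hm : MeasurableSet {z : E n × E n | dist z.2 z.1 < ℓ} := by
    apply measurableSet_lt <;> fun_prop
  have h1 : ∫⁻ x0 in U, ∫⁻ x in ball x0 ℓ, F x =
      ∫⁻ x0 in U, ∫⁻ x, ({z : E n × E n | dist z.2 z.1 < ℓ}.indicator
        (fun z => F z.2)) (x0, x) := by
    apply lintegral_congr
    intro x0
    rw [← lintegral_indicator measurableSet_ball]
    apply lintegral_congr
    intro x
    simp only [indicator, mem_ball, Set.mem_ofPred_eq]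
  rw [h1, lintegral_lintegral_swap]
  · rw [← lintegral_const_mul _ hF]
    calc ∫⁻ x in A, volume (ball (0 : E n) ℓ) * F x ≤
        ∫⁻ x in A, ∫⁻ x0 in U, ({z : E n × E n | dist z.2 z.1 < ℓ}.indicator
        (fun z => F z.2)) (x0, x) := by
          apply setLIntegral_mono' hA
          intro x hx
          have h2 : ∀ x0, ({z : E n × E n | dist z.2 z.1 < ℓ}.indicator
            (fun z => F z.2)) (x0, x) = (ball x ℓ).indicator (fun _ => F x) x0 := by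
            intro x0
            simp only [indicator, mem_ball, Set.mem_ofPred_eq, dist_comm]
          simp only [h2]
          rw [lintegral_indicator measurableSet_ball, Measure.restrict_restrict measurableSet_ball,
            inter_eq_self_of_subset_left (h x hx), setLIntegral_const,
            Measure.addHaar_ball_center volume x ℓ, mul_comm]
      _ ≤ _ := setLIntegral_le_lintegral _ _
  · exact ((hF.comp measurable_snd).indicator hm).aemeasurable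

lemma Sh_meas (n : ℕ) (T : ℝ) : MeasurableSet (Sh n T) := by
  unfold Sh
  apply MeasurableSet.inter
  · exact measurableSet_le measurable_const measurable_norm
  · exact measurableSet_le measurable_norm measurable_const

lemma cover {n : ℕ} {T ℓ : ℝ} (_ : 0 < T) (h : ℓ ≤ T / 4) (x : E n) (hx : x ∈ Sh n T) :
    ball x ℓ ⊆ Sh n (T / 2) ∪ (Sh n T ∪ Sh n (2 * T)) := by
  intro y hy
  rw [mem_ball, dist_eq_norm] at hy
  obtain ⟨h1, h2⟩ := hx
  have h3 : ‖x‖ - ‖y‖ ≤ ‖y - x‖ := by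
    rw [← norm_neg (y - x), neg_sub]
    exact norm_sub_norm_le x y
  have h4 : ‖y‖ - ‖x‖ ≤ ‖y - x‖ := norm_sub_norm_le y x
  by_cases a1 : ‖y‖ ≤ T
  · left
    exact ⟨by linarith, by linarith⟩
  · right
    push Not at a1
    by_cases a2 : ‖y‖ ≤ 2 * T
    · left
      exact ⟨a1.le, a2⟩
    · right
      push Not at a2
      exact ⟨a2.le, by linarith⟩

lemma vol_Sh (n : ℕ) {T T' : ℝ} (hT : 0 < T) (h : T' ≤ 2 * T) :
    volume (Sh n T') ≤ ENNReal.ofReal ((4 * T) ^ n) * volume (ball (0 : E n) 1) := by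
  have h1 : Sh n T' ⊆ closedBall (0 : E n) (4 * T) := by
    intro x hx
    rw [mem_closedBall, dist_zero_right]
    have := hx.2
    linarith
  refine (measure_mono h1).trans (le_of_eq ?_)
  rw [Measure.addHaar_closedBall _ _ (by positivity), finrank_euclideanSpace, Fintype.card_fin]

lemma vol_ball (n : ℕ) {ℓ : ℝ} (hT : 0 < ℓ) :
    volume (ball (0 : E n) ℓ) = ENNReal.ofReal (ℓ ^ n) * volume (ball (0 : E n) 1) := by
  rw [Measure.addHaar_ball_of_pos _ _ hT, finrank_euclideanSpace, Fintype.card_fin]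

lemma N2_hol {n : ℕ} {g : S n → ℂ} (hg : MemLp g 2 (sg n)) {q : ℝ} (hq : 2 < q) :
    ENNReal.ofReal (N2 g ^ (q / 2)) ≤ ENNReal.ofReal ((sg n).real univ ^ (q / 2 - 1)) *
      ∫⁻ y, ‖g y‖ₑ ^ q ∂(sg n) := by
  have h1 := eLpNorm'_le_eLpNorm'_mul_rpow_measure_univ (p := 2) (q := q) (by norm_num) hq.le hg.1
  have hi : Integrable (fun y => ‖g y‖ ^ 2) (sg n) := hg.integrable_norm_pow (by norm_num)
  have hN0 : 0 ≤ N2 g := integral_nonneg fun y => by positivity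
  have e1 : ENNReal.ofReal (N2 g) = ∫⁻ y, ‖g y‖ₑ ^ (2 : ℝ) ∂(sg n) := by
    unfold N2
    rw [ofReal_integral_eq_lintegral_ofReal hi (Filter.Eventually.of_forall fun y => by positivity)]
    apply lintegral_congr
    intro y
    rw [ENNReal.ofReal_pow (norm_nonneg _), ofReal_norm]
    norm_num
  have e2 : (sg n univ) = ENNReal.ofReal ((sg n).real univ) := by
    rw [Measure.real, ENNReal.ofReal_toReal (measure_ne_top _ _)]
  have h2 := ENNReal.rpow_le_rpow h1 (by linarith : 0 ≤ q)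
  unfold eLpNorm' at h2
  rw [ENNReal.mul_rpow_of_nonneg _ _ (by linarith), ← ENNReal.rpow_mul, ← ENNReal.rpow_mul,
    ← ENNReal.rpow_mul, ← e1] at h2
  have hq0 : q ≠ 0 := by linarith
  rw [show 1 / (2:ℝ) * q = q / 2 by ring, show 1 / q * q = 1 by field_simp,
    show (1 / 2 - 1 / q) * q = q / 2 - 1 by field_simp, ENNReal.rpow_one, e2,
    ENNReal.ofReal_rpow_of_nonneg hN0 (by linarith),
    ENNReal.ofReal_rpow_of_nonneg measureReal_nonneg (by linarith)] at h2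
  rw [mul_comm]
  exact h2

lemma alg1 {c : ℕ} {P q a C BB C2 v T m : ℝ} (hP : 2 < P) (ha : 0 < a) (hv : 0 < v)
    (hC2 : 0 < C2) (hT : 0 < T) (hm : 0 < m) :
    3 * (C * (a * T / m) ^ (-(P * (q - 2) / (P - 2) / 2)) *
      (BB * m ^ (-(((c : ℝ) + 1) * q / 2)) * (2 * T) ^ ((c : ℝ) + 2) * (C2 * (a * T / m)) ^ (q / 2))) /
      ((a * T / m) ^ ((c : ℝ) + 2) * v) =
    3 * C * BB * 2 ^ ((c : ℝ) + 2) * C2 ^ (q / 2) * a ^ (1 - (q - 2) / (P - 2) - ((c : ℝ) + 2)) / v *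
      (T ^ (1 - (q - 2) / (P - 2)) * m ^ ((q - 2) / (P - 2) - sc c * (q - 2))) := by
  set s := (q - 2) / (P - 2) with hs
  have hP2 : P - 2 ≠ 0 := by linarith
  have hPs : P * (q - 2) / (P - 2) = q - 2 + 2 * s := by
    rw [hs]; field_simp; ring
  set ℓ := a * T / m with hℓ
  have hℓ0 : 0 < ℓ := by positivity
  rw [Real.mul_rpow (by norm_num : (0:ℝ) ≤ 2) hT.le, Real.mul_rpow hC2.le hℓ0.le, hPs]
  have e1 : ℓ ^ (-((q - 2 + 2 * s) / 2)) * ℓ ^ (q / 2) / ℓ ^ ((c : ℝ) + 2) =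
      ℓ ^ (1 - s - ((c : ℝ) + 2)) := by
    rw [← Real.rpow_add hℓ0, ← Real.rpow_sub hℓ0]
    congr 1; ring
  have e2 : ℓ ^ (1 - s - ((c : ℝ) + 2)) = a ^ (1 - s - ((c : ℝ) + 2)) *
      T ^ (1 - s - ((c : ℝ) + 2)) * m ^ (-(1 - s - ((c : ℝ) + 2))) := by
    rw [hℓ, Real.div_rpow (by positivity) hm.le, Real.mul_rpow ha.le hT.le, Real.rpow_neg hm.le]
    rfl
  have e3 : T ^ (1 - s - ((c : ℝ) + 2)) * T ^ ((c : ℝ) + 2) = T ^ (1 - s) := by
    rw [← Real.rpow_add hT]; congr 1; ring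
  have e4 : m ^ (-(1 - s - ((c : ℝ) + 2))) * m ^ (-(((c : ℝ) + 1) * q / 2)) =
      m ^ (s - sc c * (q - 2)) := by
    rw [← Real.rpow_add hm]; congr 1; unfold sc; ring
  have hLn : ℓ ^ ((c : ℝ) + 2) ≠ 0 := (Real.rpow_pos_of_pos hℓ0 _).ne'
  calc 3 * (C * ℓ ^ (-((q - 2 + 2 * s) / 2)) *
      (BB * m ^ (-(((c : ℝ) + 1) * q / 2)) * (2 ^ ((c : ℝ) + 2) * T ^ ((c : ℝ) + 2)) *
        (C2 ^ (q / 2) * ℓ ^ (q / 2)))) / (ℓ ^ ((c : ℝ) + 2) * v) =
      3 * C * BB * 2 ^ ((c : ℝ) + 2) * C2 ^ (q / 2) / v *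
        (ℓ ^ (-((q - 2 + 2 * s) / 2)) * ℓ ^ (q / 2) / ℓ ^ ((c : ℝ) + 2)) *
        T ^ ((c : ℝ) + 2) * m ^ (-(((c : ℝ) + 1) * q / 2)) := by
        field_simp
    _ = 3 * C * BB * 2 ^ ((c : ℝ) + 2) * C2 ^ (q / 2) / v * a ^ (1 - s - ((c : ℝ) + 2)) *
        (T ^ (1 - s - ((c : ℝ) + 2)) * T ^ ((c : ℝ) + 2)) *
        (m ^ (-(1 - s - ((c : ℝ) + 2))) * m ^ (-(((c : ℝ) + 1) * q / 2))) := by
        rw [e1, e2]; ring
    _ = _ := by rw [e3, e4]; ring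

lemma alg2 {c : ℕ} {C v T ℓ W : ℝ} (hv : 0 < v) (hT : 0 < T) (hℓ : 0 < ℓ) :
    3 * (C * ℓ ^ ((c : ℝ) + 2) * (2 : ℝ) ^ (-ℓ) * W * ((4 * T) ^ ((c : ℝ) + 2) * v)) /
      (ℓ ^ ((c : ℝ) + 2) * v) =
    3 * C * W * 4 ^ ((c : ℝ) + 2) * (T ^ ((c : ℝ) + 2) * (2 : ℝ) ^ (-ℓ)) := by
  have hLn : ℓ ^ ((c : ℝ) + 2) ≠ 0 := (Real.rpow_pos_of_pos hℓ _).ne'
  rw [Real.mul_rpow (by norm_num : (0:ℝ) ≤ 4) hT.le]
  field_simp

theorem t_shell (h1 : S_BALL) (h2 : S_BB) (h3 : S_SL) : Pool.Agent.N303.SJ.S_SHELL := by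
  intro c hc P q hP hq2 hq4 hqP hγ
  obtain ⟨C2, C, hC2, hC, hBALL⟩ := h1 c hc P q hP hq2 hqP
  obtain ⟨aB, BB, haB, hBB, hBBB⟩ := h2 c hc q hq2 hq4 hγ
  have hP2 : 2 < P := by
    have : 0 < 4 / ((c : ℝ) + 1) := by positivity
    linarith
  set V : ℝ := (sg (c + 2)).real univ with hV
  have hV0 : 0 ≤ V := measureReal_nonneg
  set vE : ℝ≥0∞ := volume (ball (0 : E (c + 2)) 1) with hvE
  have hvt : vE ≠ ∞ := measure_ball_lt_top.ne
  have hv0 : 0 < vE := measure_ball_pos _ _ one_pos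
  set v : ℝ := vE.toReal with hv
  have hvp : 0 < v := ENNReal.toReal_pos hv0.ne' hvt
  have hvE' : vE = ENNReal.ofReal v := (ENNReal.ofReal_toReal hvt).symm
  set a : ℝ := min (aB / (2 * C2)) (1 / 4) with ha
  have hC20 : 0 < C2 := by linarith
  have ha0 : 0 < a := lt_min (by positivity) (by norm_num)
  have ha1 : C2 * a ≤ aB / 2 := by
    have : a ≤ aB / (2 * C2) := min_le_left _ _
    calc C2 * a ≤ C2 * (aB / (2 * C2)) := by gcongr
      _ = aB / 2 := by field_simp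
  have ha4 : a ≤ 1 / 4 := min_le_right _ _
  set B1 : ℝ := 3 * C * BB * 2 ^ ((c : ℝ) + 2) * C2 ^ (q / 2) *
    a ^ (1 - (q - 2) / (P - 2) - ((c : ℝ) + 2)) / v with hB1
  set B2 : ℝ := 3 * C * V ^ (q / 2 - 1) * 4 ^ ((c : ℝ) + 2) with hB2
  have hB1p : 0 < B1 := by positivity
  have hB2p : 0 ≤ B2 := by positivity
  refine ⟨a, B1 + B2, ha0, by linarith, ?_⟩
  intro K J m hsep hm g hgm hgL hdeg T hmT
  have hm' : (1:ℝ) ≤ m := by exact_mod_cast hm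
  have hm0 : (0:ℝ) < m := by linarith
  have hT : 0 < T := by
    by_contra hcon
    push Not at hcon
    have : a * T ≤ 0 := mul_nonpos_of_nonneg_of_nonpos ha0.le hcon
    linarith
  set ℓ : ℝ := a * T / m with hℓ
  have hℓ1 : 1 ≤ ℓ := by
    rw [hℓ, le_div_iff₀ hm0]; linarith
  have hℓ0 : 0 < ℓ := by linarith
  have hℓT : ℓ ≤ T / 4 := by
    rw [hℓ, div_le_iff₀ hm0]
    nlinarith
  set u := blk J g with hu
  have huc : Continuous u := by
    rw [hu]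
    unfold blk
    exact continuous_finsetSum _ fun k _ => cp_cont k g
  have huL : MemLp u 2 (sg (c + 2)) := by
    apply huc.memLp_of_hasCompactSupport
    exact HasCompactSupport.of_compactSpace u
  have hui : Integrable u (sg (c + 2)) := int_cc huc
  have hft : Continuous (ft u) := ft_cont hui
  set F : E (c + 2) → ℝ≥0∞ := fun x => ‖ft u x‖ₑ ^ q with hF
  have hFm : Measurable F := hft.measurable.enorm.pow_const _
  set Ig : ℝ≥0∞ := ∫⁻ y, ‖g y‖ₑ ^ q ∂(sg (c + 2)) with hIg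
  set X : ℝ≥0∞ := ∫⁻ x in Sh (c + 2) T, F x with hX
  set M1 : ℝ := C * ℓ ^ (-(P * (q - 2) / (P - 2) / 2)) *
      (BB * (m : ℝ) ^ (-(((c : ℝ) + 1) * q / 2)) * (2 * T) ^ ((c : ℝ) + 2) * (C2 * ℓ) ^ (q / 2)) with hM1
  set M2 : ℝ := C * ℓ ^ ((c : ℝ) + 2) * (2 : ℝ) ^ (-ℓ) * V ^ (q / 2 - 1) *
    ((4 * T) ^ ((c : ℝ) + 2) * v) with hM2
  have hM1p : 0 ≤ M1 := by positivity
  have hM2p : 0 ≤ M2 := by positivity
  have hN : N2 u ≤ N2 g := (h3 c g hgL J).2.1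
  have hN0 : 0 ≤ N2 u := integral_nonneg fun y => by positivity
  have hshell : ∀ T' : ℝ, 0 < T' → T / 2 ≤ T' → T' ≤ 2 * T →
      ∫⁻ x0 in Sh (c + 2) T', ∫⁻ x in ball x0 ℓ, F x ≤ ENNReal.ofReal (M1 + M2) * Ig := by
    intro T' hT'0 hT'1 hT'2
    have b0 : C2 * ℓ ≤ aB * T' / m := by
      rw [hℓ, ← mul_div_assoc]
      apply div_le_div_of_nonneg_right _ hm0.le
      calc C2 * (a * T) = (C2 * a) * T := by ring
        _ ≤ aB / 2 * T := by gcongr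
        _ = aB * (T / 2) := by ring
        _ ≤ aB * T' := by gcongr
    have b1 : ∀ x0, ∫⁻ x in ball x0 ℓ, F x ≤
        ENNReal.ofReal (C * ℓ ^ (-(P * (q - 2) / (P - 2) / 2))) *
          (∫⁻ x in ball x0 (C2 * ℓ), ‖ft u x‖ₑ ^ (2 : ℝ)) ^ (q / 2) +
        ENNReal.ofReal (C * ℓ ^ ((c : ℝ) + 2) * (2 : ℝ) ^ (-ℓ) * N2 u ^ (q / 2)) :=
      fun x0 => hBALL u huL x0 ℓ hℓ1
    have b2 := hBBB K J m hsep hm g hgm hgL hdeg T' (C2 * ℓ) (by positivity) b0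
    have b3 : ∫⁻ x in Sh (c + 2) T', (∫⁻ y in ball x (C2 * ℓ), ‖ft u y‖ₑ ^ (2 : ℝ)) ^ (q / 2) ≤
        ENNReal.ofReal (BB * (m : ℝ) ^ (-(((c : ℝ) + 1) * q / 2)) * (2 * T) ^ ((c : ℝ) + 2) *
          (C2 * ℓ) ^ (q / 2)) * Ig := by
      refine b2.trans ?_
      gcongr
    have b4 : ENNReal.ofReal (C * ℓ ^ ((c : ℝ) + 2) * (2 : ℝ) ^ (-ℓ) * N2 u ^ (q / 2)) *
        volume (Sh (c + 2) T') ≤ ENNReal.ofReal M2 * Ig := by
      have c1 := vol_Sh (c + 2) hT hT'2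
      rw [← hvE, hvE', ← ENNReal.ofReal_mul (by positivity)] at c1
      have c2 : ((4 * T) ^ (c + 2) : ℝ) = (4 * T) ^ ((c : ℝ) + 2) := by
        rw [← Real.rpow_natCast]; push_cast; rfl
      rw [c2] at c1
      have c3 : ENNReal.ofReal (N2 u ^ (q / 2)) ≤ ENNReal.ofReal (V ^ (q / 2 - 1)) * Ig := by
        refine le_trans ?_ (N2_hol hgL hq2)
        apply ENNReal.ofReal_le_ofReal
        exact Real.rpow_le_rpow hN0 hN (by linarith)
      calc ENNReal.ofReal (C * ℓ ^ ((c : ℝ) + 2) * (2 : ℝ) ^ (-ℓ) * N2 u ^ (q / 2)) *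
            volume (Sh (c + 2) T') ≤
          ENNReal.ofReal (C * ℓ ^ ((c : ℝ) + 2) * (2 : ℝ) ^ (-ℓ)) * ENNReal.ofReal (N2 u ^ (q / 2)) *
            ENNReal.ofReal ((4 * T) ^ ((c : ℝ) + 2) * v) := by
            rw [ENNReal.ofReal_mul (q := N2 u ^ (q / 2)) (by positivity)]
            gcongr
        _ ≤ ENNReal.ofReal (C * ℓ ^ ((c : ℝ) + 2) * (2 : ℝ) ^ (-ℓ)) *
            (ENNReal.ofReal (V ^ (q / 2 - 1)) * Ig) *
            ENNReal.ofReal ((4 * T) ^ ((c : ℝ) + 2) * v) := by gcongr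
        _ = ENNReal.ofReal M2 * Ig := by
            rw [hM2, ENNReal.ofReal_mul (p := C * ℓ ^ ((c : ℝ) + 2) * (2 : ℝ) ^ (-ℓ) * V ^ (q / 2 - 1))
              (by positivity), ENNReal.ofReal_mul (p := C * ℓ ^ ((c : ℝ) + 2) * (2 : ℝ) ^ (-ℓ))
              (by positivity)]
            ring
    calc ∫⁻ x0 in Sh (c + 2) T', ∫⁻ x in ball x0 ℓ, F x ≤
        ∫⁻ x0 in Sh (c + 2) T', (ENNReal.ofReal (C * ℓ ^ (-(P * (q - 2) / (P - 2) / 2))) *
          (∫⁻ x in ball x0 (C2 * ℓ), ‖ft u x‖ₑ ^ (2 : ℝ)) ^ (q / 2) +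
        ENNReal.ofReal (C * ℓ ^ ((c : ℝ) + 2) * (2 : ℝ) ^ (-ℓ) * N2 u ^ (q / 2))) :=
          lintegral_mono b1
      _ = ENNReal.ofReal (C * ℓ ^ (-(P * (q - 2) / (P - 2) / 2))) *
          (∫⁻ x0 in Sh (c + 2) T', (∫⁻ x in ball x0 (C2 * ℓ), ‖ft u x‖ₑ ^ (2 : ℝ)) ^ (q / 2)) +
        ENNReal.ofReal (C * ℓ ^ ((c : ℝ) + 2) * (2 : ℝ) ^ (-ℓ) * N2 u ^ (q / 2)) *
          volume (Sh (c + 2) T') := by
          rw [lintegral_add_right _ measurable_const, lintegral_const_mul' _ _ ENNReal.ofReal_ne_top,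
            setLIntegral_const]
      _ ≤ ENNReal.ofReal (C * ℓ ^ (-(P * (q - 2) / (P - 2) / 2))) *
          (ENNReal.ofReal (BB * (m : ℝ) ^ (-(((c : ℝ) + 1) * q / 2)) * (2 * T) ^ ((c : ℝ) + 2) *
          (C2 * ℓ) ^ (q / 2)) * Ig) + ENNReal.ofReal M2 * Ig := by gcongr
      _ = ENNReal.ofReal (M1 + M2) * Ig := by
          rw [ENNReal.ofReal_add hM1p hM2p, add_mul (ENNReal.ofReal M1) (ENNReal.ofReal M2) Ig, ← mul_assoc,
            ← ENNReal.ofReal_mul (by positivity)]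
  have hmain := tonelli F hFm (Sh (c + 2) T) (Sh (c + 2) (T / 2) ∪ (Sh (c + 2) T ∪ Sh (c + 2) (2 * T)))
    (Sh_meas _ _) ℓ (fun x hx => cover hT hℓT x hx)
  have hU : ∫⁻ x0 in (Sh (c + 2) (T / 2) ∪ (Sh (c + 2) T ∪ Sh (c + 2) (2 * T))),
      ∫⁻ x in ball x0 ℓ, F x ≤ ENNReal.ofReal (3 * (M1 + M2)) * Ig := by
    calc ∫⁻ x0 in (Sh (c + 2) (T / 2) ∪ (Sh (c + 2) T ∪ Sh (c + 2) (2 * T))),
        ∫⁻ x in ball x0 ℓ, F x ≤ (∫⁻ x0 in Sh (c + 2) (T / 2), ∫⁻ x in ball x0 ℓ, F x) +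
        ((∫⁻ x0 in Sh (c + 2) T, ∫⁻ x in ball x0 ℓ, F x) +
          ∫⁻ x0 in Sh (c + 2) (2 * T), ∫⁻ x in ball x0 ℓ, F x) := by
          refine (lintegral_union_le _ _ _).trans ?_
          gcongr
          exact lintegral_union_le _ _ _
      _ ≤ ENNReal.ofReal (M1 + M2) * Ig + (ENNReal.ofReal (M1 + M2) * Ig +
          ENNReal.ofReal (M1 + M2) * Ig) := by
          gcongr
          · exact hshell _ (by positivity) le_rfl (by linarith)
          · exact hshell _ (by positivity) (by linarith) (by linarith)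
          · exact hshell _ (by positivity) (by linarith) le_rfl
      _ = ENNReal.ofReal (3 * (M1 + M2)) * Ig := by
          rw [ENNReal.ofReal_mul (by norm_num), show ENNReal.ofReal 3 = 3 by simp]
          ring
  have hD : volume (ball (0 : E (c + 2)) ℓ) = ENNReal.ofReal (ℓ ^ ((c : ℝ) + 2) * v) := by
    rw [vol_ball _ hℓ0, ← hvE, hvE', ENNReal.ofReal_mul (by positivity)]
    congr 2
    rw [← Real.rpow_natCast]; push_cast; rfl
  have hDp : 0 < ℓ ^ ((c : ℝ) + 2) * v := by positivity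
  rw [hD] at hmain
  have hfin : ENNReal.ofReal (ℓ ^ ((c : ℝ) + 2) * v) * X ≤ ENNReal.ofReal (3 * (M1 + M2)) * Ig :=
    hmain.trans hU
  have hX2 : X ≤ ENNReal.ofReal (3 * (M1 + M2) / (ℓ ^ ((c : ℝ) + 2) * v)) * Ig := by
    have e0 : ENNReal.ofReal ((ℓ ^ ((c : ℝ) + 2) * v)⁻¹) * ENNReal.ofReal (ℓ ^ ((c : ℝ) + 2) * v) = 1 := by
      rw [← ENNReal.ofReal_mul (by positivity), inv_mul_cancel₀ hDp.ne', ENNReal.ofReal_one]
    calc X = ENNReal.ofReal ((ℓ ^ ((c : ℝ) + 2) * v)⁻¹) *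
          (ENNReal.ofReal (ℓ ^ ((c : ℝ) + 2) * v) * X) := by
          rw [← mul_assoc, e0, one_mul]
      _ ≤ ENNReal.ofReal ((ℓ ^ ((c : ℝ) + 2) * v)⁻¹) * (ENNReal.ofReal (3 * (M1 + M2)) * Ig) := by
          gcongr
      _ = _ := by
          rw [← mul_assoc, ← ENNReal.ofReal_mul (by positivity), inv_mul_eq_div]
  refine hX2.trans ?_
  gcongr
  rw [mul_add, add_div]
  have g1 := alg1 (c := c) (P := P) (q := q) (a := a) (C := C) (BB := BB) (C2 := C2) (v := v)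
    (T := T) (m := m) hP2 ha0 hvp hC20 hT hm0
  have g2 := alg2 (c := c) (C := C) (v := v) (T := T) (ℓ := ℓ) (W := V ^ (q / 2 - 1)) hvp hT hℓ0
  rw [← hℓ] at g1
  rw [hM1, hM2, g1, g2, ← hB1, ← hB2]
  have p1 : 0 ≤ T ^ (1 - (q - 2) / (P - 2)) * (m : ℝ) ^ ((q - 2) / (P - 2) - sc c * (q - 2)) := by
    positivity
  have p2 : 0 ≤ T ^ ((c : ℝ) + 2) * (2 : ℝ) ^ (-ℓ) := by positivity
  nlinarith [mul_nonneg hB1p.le p2, mul_nonneg hB2p p1]

end Pool.Agent.N265.SJ
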